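import Mathlib

set_option autoImplicit false
set_option linter.unusedSectionVars false

/-!
Regular elementary abelian groups of automorphisms: the class of the intersection `H` of the
subgroups `[G,v]` is not bounded in terms of `p`, `n` and the derived length.

The construction.  Let `k` be a finite field of characteristic `2` containing a primitive `p`-th
root of unity `w` (`p` odd) and let `R = k[t_i]/(t_i^2)`.  For `a` in `k^m` put `T a = ∑ a_i t_i`,
so that `(T a)^2 = 0`.  The matrices `x(a) = [[1,0],[T a,1]]` and `y(b) = [[1,T b],[0,1]]` over `R`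
satisfy `[x(a), y(b)] = (1 + T a * T b) I`, a scalar.  Hence the group `Q` on `k^m × k^m × Mat_m(k)`
of class `2` acts on `M = R^2`, and `G = M ⋊ Q` is a finite `2`-group of derived length `3`.
The group `V` of pairs of `p`-th roots of unity `(l, u)` acts by
`(m1, m2, a, b, C) ↦ (u s_l(m1), u^2 s_l(m2), l u a, l u⁻¹ b, l^2 C)` where `s_l` is the algebra
automorphism `t_i ↦ l t_i`.  This action is regular, the centre of `Q` lies in every `[G,v]`, and
the centre of `Q` acts on `M` with `[M, z_1, ..., z_N] ≠ 1` for `N` as large as we please.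
-/

namespace Pool.Agent.Results.MP_e56c9f_al.ClassUnbounded

/-- For `v : V` acting on the group `G`, the subgroup `[G,v]` generated by all `g⁻¹ g^v`. -/
def commWith (G V : Type) [Group G] [Group V] [MulDistribMulAction V G] (v : V) : Subgroup G :=
  Subgroup.closure {x : G | ∃ g : G, x = g⁻¹ * (v • g)}

/-- The subgroup `H`, the intersection of all `[G,v]` with `v ≠ 1`. -/
def interH (G V : Type) [Group G] [Group V] [MulDistribMulAction V G] : Subgroup G :=
  ⨅ v : V, ⨅ _ : v ≠ 1, commWith G V v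

lemma commWith_normal (G V : Type) [Group G] [Group V] [MulDistribMulAction V G] (v : V) :
    (commWith G V v).Normal := by
  refine ⟨fun n hn h => ?_⟩
  induction hn using Subgroup.closure_induction with
  | mem x hx =>
    obtain ⟨g, rfl⟩ := hx
    have h1 : (g * h⁻¹)⁻¹ * (v • (g * h⁻¹)) ∈ commWith G V v := Subgroup.subset_closure ⟨_, rfl⟩
    have h2 : (h⁻¹)⁻¹ * (v • h⁻¹) ∈ commWith G V v := Subgroup.subset_closure ⟨_, rfl⟩
    have h3 := mul_mem h1 (inv_mem h2)
    convert h3 using 1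
    rw [smul_mul']
    group
  | one => simp
  | mul x y _ _ hx hy =>
    have := mul_mem hx hy
    convert this using 1
    group
  | inv x _ hx =>
    have := inv_mem hx
    convert this using 1
    group

lemma interH_normal (G V : Type) [Group G] [Group V] [MulDistribMulAction V G] :
    (interH G V).Normal := by
  unfold interH
  refine ⟨fun n hn h => ?_⟩
  simp only [Subgroup.mem_iInf] at hn ⊢
  intro v hv
  exact (commWith_normal G V v).conj_mem n (hn v hv) h

open MvPolynomial
open scoped commutatorElement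

section ring
variable (k : Type) [Field k] (ι : Type)

/-- the ideal generated by the squares of the variables -/
noncomputable def sqIdeal : Ideal (MvPolynomial ι k) :=
  Ideal.span ((fun s : ι →₀ ℕ => (monomial s) (1 : k)) '' (Set.range fun i : ι => Finsupp.single i 2))

/-- the truncated polynomial ring `k[x_i : i ∈ ι]/(x_i^2)` -/
abbrev TR : Type := MvPolynomial ι k ⧸ sqIdeal k ι

/-- the image of the variable `x_i` -/
noncomputable def tau (i : ι) : TR k ι := Ideal.Quotient.mkₐ k (sqIdeal k ι) (X i)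

variable {k ι}

lemma tau_sq (i : ι) : tau k ι i * tau k ι i = 0 := by
  have h : (X i * X i : MvPolynomial ι k) ∈ sqIdeal k ι := by
    refine Ideal.subset_span ⟨Finsupp.single i 2, ⟨i, rfl⟩, ?_⟩
    simp only [MvPolynomial.X, monomial_mul, one_mul, ← Finsupp.single_add]
  unfold tau
  rw [← map_mul]
  exact Ideal.Quotient.eq_zero_iff_mem.mpr h

variable (k ι) in
/-- the automorphism multiplying every variable by `c` -/
noncomputable def scaleHom (c : k) : TR k ι →ₐ[k] TR k ι :=
  Ideal.Quotient.liftₐ (sqIdeal k ι) (aeval fun i : ι => c • tau k ι i) (by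
    intro a ha
    have : sqIdeal k ι ≤ RingHom.ker (aeval (fun i : ι => c • tau k ι i) : MvPolynomial ι k →ₐ[k] TR k ι) := by
      refine Ideal.span_le.mpr ?_
      rintro _ ⟨_, ⟨i, rfl⟩, rfl⟩
      have h0 : aeval (fun i : ι => c • tau k ι i) (monomial (Finsupp.single i 2) (1 : k)) = 0 := by
        rw [aeval_monomial]
        simp [smul_pow, pow_two (tau k ι i), tau_sq]
      exact h0
    exact this ha)

@[simp] lemma scaleHom_tau (c : k) (i : ι) : scaleHom k ι c (tau k ι i) = c • tau k ι i := by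
  unfold scaleHom
  rw [tau]
  erw [Ideal.Quotient.liftₐ_apply]
  erw [Ideal.Quotient.lift_mk]
  simp
  rfl

lemma scaleHom_one : scaleHom k ι (1 : k) = AlgHom.id k _ := by
  apply Ideal.Quotient.algHom_ext
  apply MvPolynomial.algHom_ext
  intro i
  have := scaleHom_tau (k := k) (1 : k) i
  simpa [tau] using this

lemma scaleHom_mul (c d : k) : scaleHom k ι (c * d) = (scaleHom k ι c).comp (scaleHom k ι d) := by
  apply Ideal.Quotient.algHom_ext
  apply MvPolynomial.algHom_ext
  intro i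
  have h1 := scaleHom_tau (k := k) (c * d) i
  have h2 := scaleHom_tau (k := k) d i
  have h3 := scaleHom_tau (k := k) c i
  simp only [AlgHom.comp_apply]
  change scaleHom k ι (c * d) (tau k ι i) = scaleHom k ι c (scaleHom k ι d (tau k ι i))
  rw [h1, h2, map_smul, h3, smul_smul, mul_comm]

lemma prod_tau_ne_zero [Fintype ι] : ∏ i : ι, tau k ι i ≠ 0 := by
  classical
  unfold tau
  rw [← map_prod]
  intro h
  have h' : (∏ i : ι, X i : MvPolynomial ι k) ∈ sqIdeal k ι := Ideal.Quotient.eq_zero_iff_mem.mp h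
  unfold sqIdeal at h'
  rw [mem_ideal_span_monomial_image] at h'
  have hp : (∏ i : ι, X i : MvPolynomial ι k) = monomial (∑ i : ι, Finsupp.single i 1) 1 := by
    simp [MvPolynomial.X, monomial_sum_one]
  rw [hp] at h'
  have hs : (∑ i : ι, Finsupp.single i 1) ∈ (monomial (∑ i : ι, Finsupp.single i 1) (1 : k)).support := by
    rw [support_monomial, if_neg one_ne_zero]
    simp
  obtain ⟨_, ⟨i, rfl⟩, hi⟩ := h' _ hs
  have := hi i
  simp [Finsupp.single_apply, Finsupp.finsetSum_apply] at this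

instance finite_TR [Finite k] [Finite ι] : Finite (TR k ι) := by
  cases nonempty_fintype ι
  have hft : Algebra.FiniteType k (TR k ι) := inferInstance
  have hint : Algebra.IsIntegral k (TR k ι) := by
    have hadj : Algebra.adjoin k (Set.range (tau k ι)) = ⊤ := by
      have h1 : (Ideal.Quotient.mkₐ k (sqIdeal k ι)).range = ⊤ := by
        rw [AlgHom.range_eq_top]
        exact Ideal.Quotient.mkₐ_surjective k _
      rw [← h1, ← Algebra.map_top, ← MvPolynomial.adjoin_range_X, AlgHom.map_adjoin]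
      congr 1
      ext x
      simp [tau]
    refine ⟨fun x => ?_⟩
    have hx : x ∈ Algebra.adjoin k (Set.range (tau k ι)) := by rw [hadj]; trivial
    have hle : Algebra.adjoin k (Set.range (tau k ι)) ≤ integralClosure k (TR k ι) := by
      rw [Algebra.adjoin_le_iff]
      rintro _ ⟨i, rfl⟩
      have : IsIntegral k (tau k ι i ^ 2) := by
        rw [pow_two, tau_sq]; exact isIntegral_zero
      exact IsIntegral.of_pow (by norm_num) this
    exact hle hx
  have : Module.Finite k (TR k ι) := Algebra.IsIntegral.finite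
  exact Module.finite_of_finite k

end ring


lemma sum_sq_zero {R ι : Type} [CommRing R] (s : Finset ι) (y : ι → R) (hy : ∀ i, y i * y i = 0) (h2 : (2 : R) = 0) :
    (∑ i ∈ s, y i) * (∑ i ∈ s, y i) = 0 := by
  classical
  induction s using Finset.induction_on with
  | empty => simp
  | insert i s hi ih =>
    rw [Finset.sum_insert hi]
    linear_combination hy i + ih + (y i * ∑ x ∈ s, y x) * h2

lemma prod_one_add {R ι : Type} [CommRing R] (x : R) (hx : x * x = 0) (s : Finset ι) (y : ι → R) :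
    ∏ i ∈ s, (1 + x * y i) = 1 + x * ∑ i ∈ s, y i := by
  classical
  induction s using Finset.induction_on with
  | empty => simp
  | insert i s hi ih =>
    rw [Finset.prod_insert hi, Finset.sum_insert hi, ih]
    linear_combination (y i * ∑ i ∈ s, y i) * hx

lemma two_R (k R : Type) [Field k] [CharP k 2] [CommRing R] [Algebra k R] : (2 : R) = 0 := by
  have h : ((2 : k)) = 0 := CharTwo.two_eq_zero
  rw [← map_ofNat (algebraMap k R) 2, h, map_zero]

lemma add_self_R (k : Type) {R : Type} [Field k] [CharP k 2] [CommRing R] [Algebra k R] (x : R) :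
    x + x = 0 := by
  rw [← two_mul, two_R k R, zero_mul]

/-- A commutative algebra with square-zero elements `t i` and scaling automorphisms. -/
structure SqSystem (k R ι : Type) [Field k] [CommRing R] [Algebra k R] where
  t : ι → R
  t_sq : ∀ i, t i * t i = 0
  sc : k → R →ₐ[k] R
  sc_t : ∀ c i, sc c (t i) = c • t i
  sc_one : sc 1 = AlgHom.id k R
  sc_mul : ∀ c d, sc (c * d) = (sc c).comp (sc d)

section group
variable {k R ι : Type} [Field k] [CharP k 2] [CommRing R] [Algebra k R] [Fintype ι]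
  (S : SqSystem k R ι)

namespace SqSystem

/-- the linear form `T a = ∑ a_i t_i` -/
def T (a : ι → k) : R := ∑ i, a i • S.t i

lemma T_sq (a : ι → k) : S.T a * S.T a = 0 := by
  unfold T
  apply sum_sq_zero _ _ _ (two_R k R)
  intro i
  rw [smul_mul_smul_comm, S.t_sq, smul_zero]

lemma T_add (a b : ι → k) : S.T (a + b) = S.T a + S.T b := by
  simp [T, add_smul, Finset.sum_add_distrib]

@[simp] lemma T_zero : S.T 0 = 0 := by simp [T]

lemma T_smul (c : k) (a : ι → k) : S.T (c • a) = c • S.T a := by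
  simp [T, Finset.smul_sum, smul_smul]

lemma scale_T (c : k) (a : ι → k) : S.sc c (S.T a) = c • S.T a := by
  simp [T, smul_smul, mul_comm, S.sc_t, Finset.smul_sum]

/-- the unit `∏ (1 + C_{ij} t_i t_j)` attached to a matrix `C` -/
def phi (C : ι → ι → k) : R := ∏ i, ∏ j, (1 + C i j • (S.t i * S.t j))

lemma phi_add (C D : ι → ι → k) : S.phi (fun i j => C i j + D i j) = S.phi C * S.phi D := by
  unfold phi
  rw [← Finset.prod_mul_distrib]
  refine Finset.prod_congr rfl fun i _ => ?_
  rw [← Finset.prod_mul_distrib]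
  refine Finset.prod_congr rfl fun j _ => ?_
  have h := S.t_sq i
  rw [add_smul, Algebra.smul_def, Algebra.smul_def]
  linear_combination (-(algebraMap k R (C i j) * algebraMap k R (D i j) * S.t j * S.t j)) * h

@[simp] lemma phi_zero : S.phi (0 : ι → ι → k) = 1 := by simp [phi]
@[simp] lemma phi_zero' : S.phi (fun (_ _ : ι) => (0 : k)) = 1 := by simp [phi]

lemma phi_outer (b a : ι → k) : S.phi (fun i j => b i * a j) = 1 + S.T a * S.T b := by
  unfold phi
  have h1 : ∀ i, ∏ j, (1 + (b i * a j) • (S.t i * S.t j)) = 1 + S.T a * (b i • S.t i) := by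
    intro i
    have hx : (b i • S.t i) * (b i • S.t i) = 0 := by
      rw [smul_mul_smul_comm, S.t_sq, smul_zero]
    have h2 := prod_one_add (b i • S.t i) hx Finset.univ (fun j => a j • S.t j)
    rw [mul_comm (S.T a)]
    unfold T
    rw [← h2]
    refine Finset.prod_congr rfl fun j _ => ?_
    rw [smul_mul_smul_comm]
  rw [Finset.prod_congr rfl (fun i _ => h1 i)]
  exact prod_one_add _ (S.T_sq a) _ _

lemma scale_phi (c : k) (C : ι → ι → k) :
    S.sc c (S.phi C) = S.phi (fun i j => c ^ 2 * C i j) := by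
  unfold phi
  rw [map_prod]
  refine Finset.prod_congr rfl fun i _ => ?_
  rw [map_prod]
  refine Finset.prod_congr rfl fun j _ => ?_
  rw [map_add, map_one, map_smul, map_mul, S.sc_t, S.sc_t, smul_mul_smul_comm, smul_smul]
  congr 2
  ring

end SqSystem

/-- the underlying set of the group -/
@[ext] structure GG (S : SqSystem k R ι) where
  m1 : R
  m2 : R
  a : ι → k
  b : ι → k
  C : ι → ι → k

variable {S}
namespace GG

instance : Mul (GG S) :=
  ⟨fun g h => ⟨g.m1 + S.phi g.C * (h.m1 + S.T g.b * h.m2),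
    g.m2 + S.phi g.C * (h.m2 + S.T g.a * h.m1 + S.T g.a * S.T g.b * h.m2),
    g.a + h.a, g.b + h.b, fun i j => g.C i j + h.C i j + g.b i * h.a j⟩⟩

instance : One (GG S) := ⟨⟨0, 0, 0, 0, 0⟩⟩

instance : Inv (GG S) :=
  ⟨fun g => ⟨S.phi (fun i j => g.C i j + g.b i * g.a j) * (g.m1 + S.T g.b * g.m2),
    S.phi (fun i j => g.C i j + g.b i * g.a j) * (g.m2 + S.T g.a * g.m1 + S.T g.a * S.T g.b * g.m2),
    g.a, g.b, fun i j => g.C i j + g.b i * g.a j⟩⟩

@[simp] lemma mul_m1 (g h : GG S) : (g * h).m1 = g.m1 + S.phi g.C * (h.m1 + S.T g.b * h.m2) := rfl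
@[simp] lemma mul_m2 (g h : GG S) : (g * h).m2 =
    g.m2 + S.phi g.C * (h.m2 + S.T g.a * h.m1 + S.T g.a * S.T g.b * h.m2) := rfl
@[simp] lemma mul_a (g h : GG S) : (g * h).a = g.a + h.a := rfl
@[simp] lemma mul_b (g h : GG S) : (g * h).b = g.b + h.b := rfl
@[simp] lemma mul_C (g h : GG S) : (g * h).C = fun i j => g.C i j + h.C i j + g.b i * h.a j := rfl
@[simp] lemma one_m1 : (1 : GG S).m1 = 0 := rfl
@[simp] lemma one_m2 : (1 : GG S).m2 = 0 := rfl
@[simp] lemma one_a : (1 : GG S).a = 0 := rfl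
@[simp] lemma one_b : (1 : GG S).b = 0 := rfl
@[simp] lemma one_C : (1 : GG S).C = 0 := rfl
@[simp] lemma inv_m1 (g : GG S) : (g⁻¹).m1 =
  S.phi (fun i j => g.C i j + g.b i * g.a j) * (g.m1 + S.T g.b * g.m2) := rfl
@[simp] lemma inv_m2 (g : GG S) : (g⁻¹).m2 =
  S.phi (fun i j => g.C i j + g.b i * g.a j) *
    (g.m2 + S.T g.a * g.m1 + S.T g.a * S.T g.b * g.m2) := rfl
@[simp] lemma inv_a (g : GG S) : (g⁻¹).a = g.a := rfl
@[simp] lemma inv_b (g : GG S) : (g⁻¹).b = g.b := rfl
@[simp] lemma inv_C (g : GG S) : (g⁻¹).C = fun i j => g.C i j + g.b i * g.a j := rfl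

instance : Group (GG S) :=
  Group.ofLeftAxioms (by
    intro x y z
    have h2 : (2 : R) = 0 := two_R k R
    have ha := S.T_sq x.a
    have hb := S.T_sq x.b
    have ha' := S.T_sq y.a
    have hb' := S.T_sq y.b
    have hphi : S.phi (x * y).C = S.phi x.C * S.phi y.C * (1 + S.T y.a * S.T x.b) := by
      rw [mul_C]
      rw [S.phi_add (fun i j => x.C i j + y.C i j) (fun i j => x.b i * y.a j), S.phi_add,
        S.phi_outer]
    apply GG.ext
    · simp only [hphi, mul_m1, mul_m2, mul_b, S.T_add]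
      linear_combination (S.phi x.C * S.phi y.C * S.T y.a * z.m2) * hb
    · simp only [hphi, mul_m1, mul_m2, mul_a, mul_b, S.T_add]
      generalize S.phi x.C = P
      generalize S.phi y.C = Q
      generalize S.T x.a = A at *
      generalize S.T x.b = B at *
      generalize S.T y.a = A' at *
      generalize S.T y.b = B' at *
      linear_combination (P * Q * B * z.m1 + P * Q * B * (B + B') * z.m2) * ha' +
        (P * Q * A' * A * z.m2) * hb + (P * Q * A' * B * z.m2) * h2
    · simp [add_assoc]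
    · simp [add_assoc]
    · funext i j
      simp
      ring) (by
    intro x
    apply GG.ext <;> simp) (by
    intro x
    apply GG.ext
    · rw [mul_m1, inv_m1, inv_C, inv_b]
      exact add_self_R k _
    · rw [mul_m2, inv_m2, inv_C, inv_b, inv_a]
      exact add_self_R k _
    · rw [mul_a, inv_a]; funext i; exact CharTwo.add_self_eq_zero _
    · rw [mul_b, inv_b]; funext i; exact CharTwo.add_self_eq_zero _
    · funext i j
      rw [mul_C, inv_C, inv_b]
      simp only [one_C, Pi.zero_apply]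
      have := CharTwo.add_self_eq_zero (x.C i j + x.b i * x.a j)
      linear_combination this)

/-- the torus action -/
instance : MulDistribMulAction (kˣ × kˣ) (GG S) where
  smul u g := ⟨(u.2 : k) • S.sc u.1 g.m1, ((u.2 : k) ^ 2) • S.sc u.1 g.m2,
    ((u.1 * u.2 : kˣ) : k) • g.a, ((u.1 * u.2⁻¹ : kˣ) : k) • g.b, fun i j => (u.1 : k) ^ 2 * g.C i j⟩
  one_smul g := by
    apply GG.ext
    · change ((1 : kˣ × kˣ).2 : k) • S.sc ((1 : kˣ × kˣ).1 : k) g.m1 = g.m1
      simp [S.sc_one]
    · change (((1 : kˣ × kˣ).2 : k) ^ 2) • S.sc ((1 : kˣ × kˣ).1 : k) g.m2 = g.m2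
      simp [S.sc_one]
    · change (((1 : kˣ × kˣ).1 * (1 : kˣ × kˣ).2 : kˣ) : k) • g.a = g.a
      simp
    · change (((1 : kˣ × kˣ).1 * ((1 : kˣ × kˣ).2)⁻¹ : kˣ) : k) • g.b = g.b
      simp
    · funext i j
      change (((1 : kˣ × kˣ).1 : kˣ) : k) ^ 2 * g.C i j = g.C i j
      simp
  mul_smul u v g := by
    apply GG.ext
    · change (((u * v).2 : kˣ) : k) • S.sc (((u * v).1 : kˣ) : k) g.m1 =
        (u.2 : k) • S.sc u.1 ((v.2 : k) • S.sc v.1 g.m1)
      simp [S.sc_mul, smul_smul]
    · change ((((u * v).2 : kˣ) : k) ^ 2) • S.sc (((u * v).1 : kˣ) : k) g.m2 =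
        ((u.2 : k) ^ 2) • S.sc u.1 (((v.2 : k) ^ 2) • S.sc v.1 g.m2)
      simp [S.sc_mul, smul_smul, mul_pow]
    · change (((u * v).1 * (u * v).2 : kˣ) : k) • g.a =
        ((u.1 * u.2 : kˣ) : k) • (((v.1 * v.2 : kˣ) : k) • g.a)
      rw [smul_smul]
      congr 1
      simp
      ring
    · change (((u * v).1 * ((u * v).2)⁻¹ : kˣ) : k) • g.b =
        ((u.1 * u.2⁻¹ : kˣ) : k) • (((v.1 * v.2⁻¹ : kˣ) : k) • g.b)
      rw [smul_smul, ← Units.val_mul]
      congr 2
      simp only [Prod.fst_mul, Prod.snd_mul, mul_inv]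
      rw [mul_mul_mul_comm]
    · funext i j
      change (((u * v).1 : kˣ) : k) ^ 2 * g.C i j = (u.1 : k) ^ 2 * ((v.1 : k) ^ 2 * g.C i j)
      simp
      ring
  smul_mul u g h := by
    have hu : (u.2 : k) * ((u.2⁻¹ : kˣ) : k) = 1 := by simp
    have hu' : algebraMap k R (u.2 : k) * algebraMap k R ((u.2⁻¹ : kˣ) : k) = 1 := by
      rw [← map_mul, hu, map_one]
    apply GG.ext
    · change (u.2 : k) • S.sc u.1 (g.m1 + S.phi g.C * (h.m1 + S.T g.b * h.m2)) =
        (u.2 : k) • S.sc u.1 g.m1 + S.phi (fun i j => (u.1 : k) ^ 2 * g.C i j) *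
          ((u.2 : k) • S.sc u.1 h.m1 + S.T (((u.1 * u.2⁻¹ : kˣ) : k) • g.b) *
            (((u.2 : k) ^ 2) • S.sc u.1 h.m2))
      simp only [map_add, map_mul, S.scale_phi, S.scale_T, S.T_smul]
      simp only [Units.val_mul, Algebra.smul_def, map_pow, map_mul]
      linear_combination (-(algebraMap k R u.2 * S.phi (fun i j => (u.1 : k) ^ 2 * g.C i j) *
        algebraMap k R u.1 * S.T g.b * S.sc u.1 h.m2)) * hu'
    · change ((u.2 : k) ^ 2) • S.sc u.1 (g.m2 + S.phi g.C * (h.m2 + S.T g.a * h.m1 +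
          S.T g.a * S.T g.b * h.m2)) =
        ((u.2 : k) ^ 2) • S.sc u.1 g.m2 + S.phi (fun i j => (u.1 : k) ^ 2 * g.C i j) *
          (((u.2 : k) ^ 2) • S.sc u.1 h.m2 + S.T (((u.1 * u.2 : kˣ) : k) • g.a) *
            ((u.2 : k) • S.sc u.1 h.m1) + S.T (((u.1 * u.2 : kˣ) : k) • g.a) *
            S.T (((u.1 * u.2⁻¹ : kˣ) : k) • g.b) * (((u.2 : k) ^ 2) • S.sc u.1 h.m2))
      simp only [map_add, map_mul, S.scale_phi, S.scale_T, S.T_smul]
      simp only [Units.val_mul, Algebra.smul_def, map_pow, map_mul]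
      linear_combination (-(algebraMap k R u.2 ^ 2 * S.phi (fun i j => (u.1 : k) ^ 2 * g.C i j) *
        algebraMap k R u.1 ^ 2 * S.T g.a * S.T g.b * S.sc u.1 h.m2)) * hu'
    · change ((u.1 * u.2 : kˣ) : k) • (g.a + h.a) = _ • g.a + _ • h.a
      rw [smul_add]
    · change ((u.1 * u.2⁻¹ : kˣ) : k) • (g.b + h.b) = _ • g.b + _ • h.b
      rw [smul_add]
    · funext i j
      change (u.1 : k) ^ 2 * (g.C i j + h.C i j + g.b i * h.a j) =
        (u.1 : k) ^ 2 * g.C i j + (u.1 : k) ^ 2 * h.C i j +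
          (((u.1 * u.2⁻¹ : kˣ) : k) * g.b i) * (((u.1 * u.2 : kˣ) : k) * h.a j)
      simp only [Units.val_mul]
      linear_combination (-((u.1 : k) ^ 2 * g.b i * h.a j)) * hu
  smul_one u := by
    apply GG.ext
    · change (u.2 : k) • S.sc u.1 (0 : R) = 0
      simp
    · change ((u.2 : k) ^ 2) • S.sc u.1 (0 : R) = 0
      simp
    · change ((u.1 * u.2 : kˣ) : k) • (0 : ι → k) = 0
      simp
    · change ((u.1 * u.2⁻¹ : kˣ) : k) • (0 : ι → k) = 0
      simp
    · funext i j
      change (u.1 : k) ^ 2 * (0 : k) = 0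
      simp

lemma smul_m1 (u : kˣ × kˣ) (g : GG S) : (u • g).m1 = (u.2 : k) • S.sc u.1 g.m1 := rfl
lemma smul_m2 (u : kˣ × kˣ) (g : GG S) : (u • g).m2 = ((u.2 : k) ^ 2) • S.sc u.1 g.m2 := rfl
lemma smul_a (u : kˣ × kˣ) (g : GG S) : (u • g).a = ((u.1 * u.2 : kˣ) : k) • g.a := rfl
lemma smul_b (u : kˣ × kˣ) (g : GG S) : (u • g).b = ((u.1 * u.2⁻¹ : kˣ) : k) • g.b := rfl
lemma smul_C (u : kˣ × kˣ) (g : GG S) : (u • g).C = fun i j => (u.1 : k) ^ 2 * g.C i j := rfl

lemma finite_GG [Finite k] [Finite R] : Finite (GG S) := by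
  have f : GG S → R × R × (ι → k) × (ι → k) × (ι → ι → k) := fun g => (g.m1, g.m2, g.a, g.b, g.C)
  refine Finite.of_injective (fun g : GG S => (g.m1, g.m2, g.a, g.b, g.C)) ?_
  intro g h hgh
  simp only [Prod.mk.injEq] at hgh
  exact GG.ext hgh.1 hgh.2.1 hgh.2.2.1 hgh.2.2.2.1 hgh.2.2.2.2

/-- elements of the subgroup `M` -/
def Mm (S : SqSystem k R ι) (m : R) : GG S := ⟨m, 0, 0, 0, 0⟩
def X1 (S : SqSystem k R ι) (a : ι → k) : GG S := ⟨0, 0, a, 0, 0⟩
def X2 (S : SqSystem k R ι) (b : ι → k) : GG S := ⟨0, 0, 0, b, 0⟩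
def Zz (S : SqSystem k R ι) (C : ι → ι → k) : GG S := ⟨0, 0, 0, 0, C⟩

lemma comm_X1_X2 (a b : ι → k) : ⁅X1 S a, X2 S b⁆ = Zz S (fun i j => b i * a j) := by
  rw [commutatorElement_def]
  apply GG.ext
  · simp [X1, X2, Zz]
  · simp [X1, X2, Zz]
  · funext i
    simp [X1, X2, Zz, CharTwo.add_self_eq_zero]
  · funext i
    simp [X1, X2, Zz, CharTwo.add_self_eq_zero]
  · funext i j
    simp [X1, X2, Zz]

lemma comm_M_Z (m : R) (a b : ι → k) :
    ⁅Mm S m, Zz S (fun i j => b i * a j)⁆ = Mm S (S.T a * S.T b * m) := by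
  rw [commutatorElement_def]
  apply GG.ext
  · simp [Mm, Zz, S.phi_outer]
    have := add_self_R k m
    linear_combination this
  · simp [Mm, Zz]
  · funext i
    simp [Mm, Zz]
  · funext i
    simp [Mm, Zz]
  · funext i j
    simp [Mm, Zz, CharTwo.add_self_eq_zero]

lemma sq_a (g : GG S) : (g ^ 2).a = 0 := by
  rw [pow_two]; funext i; exact CharTwo.add_self_eq_zero _

lemma sq_b (g : GG S) : (g ^ 2).b = 0 := by
  rw [pow_two]; funext i; exact CharTwo.add_self_eq_zero _

lemma sq_C (g : GG S) (hb : g.b = 0) : (g ^ 2).C = 0 := by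
  rw [pow_two]; funext i j; simp [hb, CharTwo.add_self_eq_zero]

lemma sq_one (g : GG S) (ha : g.a = 0) (hb : g.b = 0) (hC : g.C = 0) : g ^ 2 = 1 := by
  rw [pow_two]
  apply GG.ext
  · simp [hb, hC]; exact add_self_R k _
  · simp [ha, hb, hC]; exact add_self_R k _
  · simp [ha]
  · simp [hb]
  · funext i j; simp [hb, hC]

lemma isPGroup : IsPGroup 2 (GG S) := by
  intro g
  refine ⟨3, ?_⟩
  have h1 : (g ^ 2 ^ 3) = ((g ^ 2) ^ 2) ^ 2 := by
    rw [← pow_mul, ← pow_mul]
    norm_num
  rw [h1]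
  apply sq_one
  · exact sq_a _
  · exact sq_b _
  · exact sq_C _ (sq_b _)

/-- first term of the series -/
def K1 (S : SqSystem k R ι) : Subgroup (GG S) where
  carrier := {g | g.a = 0 ∧ g.b = 0}
  mul_mem' := by
    rintro x y ⟨h1, h2⟩ ⟨h3, h4⟩
    exact ⟨by simp [h1, h3], by simp [h2, h4]⟩
  one_mem' := ⟨rfl, rfl⟩
  inv_mem' := by
    rintro x ⟨h1, h2⟩
    exact ⟨by simp [h1], by simp [h2]⟩

/-- second term of the series -/
def K2 (S : SqSystem k R ι) : Subgroup (GG S) where
  carrier := {g | g.a = 0 ∧ g.b = 0 ∧ g.C = 0}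
  mul_mem' := by
    rintro x y ⟨h1, h2, h5⟩ ⟨h3, h4, h6⟩
    refine ⟨by simp [h1, h3], by simp [h2, h4], ?_⟩
    funext i j
    simp [h2, h5, h6]
  one_mem' := ⟨rfl, rfl, rfl⟩
  inv_mem' := by
    rintro x ⟨h1, h2, h3⟩
    refine ⟨by simp [h1], by simp [h2], ?_⟩
    funext i j
    simp [h2, h3]

lemma derived_one : derivedSeries (GG S) 1 ≤ K1 S := by
  rw [derivedSeries_succ, derivedSeries_zero, Subgroup.commutator_le]
  intro g _ h _
  rw [commutatorElement_def]
  constructor
  · funext i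
    simp
    have h1 := CharTwo.add_self_eq_zero (g.a i)
    have h2 := CharTwo.add_self_eq_zero (h.a i)
    linear_combination h1 + h2
  · funext i
    simp
    have h1 := CharTwo.add_self_eq_zero (g.b i)
    have h2 := CharTwo.add_self_eq_zero (h.b i)
    linear_combination h1 + h2

lemma derived_two : derivedSeries (GG S) 2 ≤ K2 S := by
  rw [derivedSeries_succ, Subgroup.commutator_le]
  intro g hg h hh
  obtain ⟨ga, gb⟩ := derived_one hg
  obtain ⟨ha, hb⟩ := derived_one hh
  rw [commutatorElement_def]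
  refine ⟨by simp [ga, ha], by simp [gb, hb], ?_⟩
  funext i j
  simp [ga, ha, gb, hb]
  have h1 := CharTwo.add_self_eq_zero (g.C i j)
  have h2 := CharTwo.add_self_eq_zero (h.C i j)
  linear_combination h1 + h2

lemma derived_three : derivedSeries (GG S) 3 = ⊥ := by
  rw [eq_bot_iff, derivedSeries_succ, Subgroup.commutator_le]
  intro g hg h hh
  obtain ⟨ga, gb, gC⟩ := derived_two hg
  obtain ⟨ha, hb, hC⟩ := derived_two hh
  rw [Subgroup.mem_bot, commutatorElement_def]
  apply GG.ext
  · simp [ga, gb, gC, ha, hb, hC]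
    linear_combination add_self_R k g.m1 + add_self_R k h.m1
  · simp [ga, gb, gC, ha, hb, hC]
    linear_combination add_self_R k g.m2 + add_self_R k h.m2
  · simp [ga, ha]
  · simp [gb, hb]
  · funext i j
    simp [gb, hb, gC, hC]

/-- the acting group: pairs of `p`-th roots of unity -/
abbrev VV (p : ℕ) (k : Type) [Field k] : Type :=
  ↥((rootsOfUnity p k).prod (rootsOfUnity p k))

lemma vv_smul (p : ℕ) (v : VV p k) (g : GG S) : v • g = (v : kˣ × kˣ) • g := rfl

lemma vv_pow (p : ℕ) (v : VV p k) : v ^ p = 1 := by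
  obtain ⟨⟨x, y⟩, h⟩ := v
  rw [Subgroup.mem_prod, mem_rootsOfUnity, mem_rootsOfUnity] at h
  apply Subtype.ext
  exact Prod.ext h.1 h.2

lemma vv_card (p : ℕ) [NeZero p] (w : k) (hw : IsPrimitiveRoot w p) : Nat.card (VV p k) = p ^ 2 := by
  rw [Nat.card_congr (Subgroup.prodEquiv _ _).toEquiv, Nat.card_prod, hw.card_rootsOfUnity, pow_two]

lemma fpf (p : ℕ) (hp : p.Prime) (hp2 : p ≠ 2) (w : kˣ) (hw : IsPrimitiveRoot w p) (g : GG S)
    (h : ∀ v : VV p k, v • g = g) : g = 1 := by
  have hmem : w ∈ rootsOfUnity p k := (mem_rootsOfUnity p w).mpr hw.pow_eq_one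
  have hw1 : (w : k) ≠ 1 := by
    intro h1
    exact hw.ne_one hp.one_lt (Units.ext h1)
  have hw2 : (w : k) ^ 2 ≠ 1 := by
    intro h1
    have : w ^ 2 = 1 := Units.ext (by simpa using h1)
    have h3 := (hw.pow_eq_one_iff_dvd 2).mp this
    have := (Nat.prime_dvd_prime_iff_eq hp Nat.prime_two).mp h3
    exact hp2 this
  have hA := h ⟨(w, 1), by rw [Subgroup.mem_prod]; exact ⟨hmem, one_mem _⟩⟩
  have hB := h ⟨(1, w), by rw [Subgroup.mem_prod]; exact ⟨one_mem _, hmem⟩⟩
  rw [vv_smul] at hA hB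
  apply GG.ext
  · have h1 := congrArg GG.m1 hB
    rw [smul_m1] at h1
    simp only [Units.val_one, S.sc_one, AlgHom.coe_id, id_eq] at h1
    have h2 : ((w : k) - 1) • g.m1 = 0 := by rw [sub_smul, h1, one_smul, sub_self]
    exact (smul_eq_zero.mp h2).resolve_left (sub_ne_zero.mpr hw1)
  · have h1 := congrArg GG.m2 hB
    rw [smul_m2] at h1
    simp only [Units.val_one, S.sc_one, AlgHom.coe_id, id_eq] at h1
    have h2 : ((w : k) ^ 2 - 1) • g.m2 = 0 := by rw [sub_smul, h1, one_smul, sub_self]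
    exact (smul_eq_zero.mp h2).resolve_left (sub_ne_zero.mpr hw2)
  · have h1 := congrArg GG.a hA
    rw [smul_a] at h1
    simp only [mul_one] at h1
    funext i
    have h2 := congrFun h1 i
    simp only [Pi.smul_apply, smul_eq_mul] at h2
    have h3 : ((w : k) - 1) * g.a i = 0 := by rw [sub_mul, h2, one_mul, sub_self]
    exact (mul_eq_zero.mp h3).resolve_left (sub_ne_zero.mpr hw1)
  · have h1 := congrArg GG.b hA
    rw [smul_b] at h1
    simp only [inv_one, mul_one] at h1
    funext i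
    have h2 := congrFun h1 i
    simp only [Pi.smul_apply, smul_eq_mul] at h2
    have h3 : ((w : k) - 1) * g.b i = 0 := by rw [sub_mul, h2, one_mul, sub_self]
    exact (mul_eq_zero.mp h3).resolve_left (sub_ne_zero.mpr hw1)
  · have h1 := congrArg GG.C hA
    rw [smul_C] at h1
    funext i j
    have h2 := congrFun (congrFun h1 i) j
    simp only at h2
    have h3 : ((w : k) ^ 2 - 1) * g.C i j = 0 := by rw [sub_mul, h2, one_mul, sub_self]
    exact (mul_eq_zero.mp h3).resolve_left (sub_ne_zero.mpr hw2)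

lemma X1_add (a a' : ι → k) : (X1 S a)⁻¹ * X1 S a' = X1 S (a + a') := by
  apply GG.ext
  · simp [X1]
  · simp [X1]
  · simp [X1]
  · simp [X1]
  · funext i j; simp [X1]

lemma X2_add (a a' : ι → k) : (X2 S a)⁻¹ * X2 S a' = X2 S (a + a') := by
  apply GG.ext
  · simp [X2]
  · simp [X2]
  · simp [X2]
  · simp [X2]
  · funext i j; simp [X2]

lemma smul_X1 (u : kˣ × kˣ) (a : ι → k) : u • X1 S a = X1 S (((u.1 * u.2 : kˣ) : k) • a) := by
  apply GG.ext
  · simp [X1, smul_m1]
  · simp [X1, smul_m2]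
  · simp [X1, smul_a]
  · simp [X1, smul_b]
  · funext i j; simp [X1, smul_C]

lemma smul_X2 (u : kˣ × kˣ) (a : ι → k) : u • X2 S a = X2 S (((u.1 * u.2⁻¹ : kˣ) : k) • a) := by
  apply GG.ext
  · simp [X2, smul_m1]
  · simp [X2, smul_m2]
  · simp [X2, smul_a]
  · simp [X2, smul_b]
  · funext i j; simp [X2, smul_C]

lemma X1_mem (p : ℕ) (v : VV p k) (hv : ((v : kˣ × kˣ).1 * (v : kˣ × kˣ).2) ≠ 1) (a : ι → k) :
    X1 S a ∈ commWith (GG S) (VV p k) v := by
  set c : k := (((v : kˣ × kˣ).1 * (v : kˣ × kˣ).2 : kˣ) : k) with hc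
  have hc1 : c + 1 ≠ 0 := by
    intro h
    apply hv
    apply Units.ext
    rw [Units.val_one, ← hc]
    have h1 : (1 : k) + 1 = 0 := CharTwo.add_self_eq_zero 1
    linear_combination h - h1
  refine Subgroup.subset_closure ⟨X1 S ((c + 1)⁻¹ • a), ?_⟩
  rw [vv_smul, smul_X1, ← hc, X1_add]
  congr 1
  rw [smul_smul, ← add_smul]
  have : (c + 1)⁻¹ + c * (c + 1)⁻¹ = 1 := by
    field_simp
    ring
  rw [this, one_smul]

lemma X2_mem (p : ℕ) (v : VV p k) (hv : ((v : kˣ × kˣ).1 * ((v : kˣ × kˣ).2)⁻¹) ≠ 1) (a : ι → k) :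
    X2 S a ∈ commWith (GG S) (VV p k) v := by
  set c : k := (((v : kˣ × kˣ).1 * ((v : kˣ × kˣ).2)⁻¹ : kˣ) : k) with hc
  have hc1 : c + 1 ≠ 0 := by
    intro h
    apply hv
    apply Units.ext
    rw [Units.val_one, ← hc]
    have h1 : (1 : k) + 1 = 0 := CharTwo.add_self_eq_zero 1
    linear_combination h - h1
  refine Subgroup.subset_closure ⟨X2 S ((c + 1)⁻¹ • a), ?_⟩
  rw [vv_smul, smul_X2, ← hc, X2_add]
  congr 1
  rw [smul_smul, ← add_smul]
  have : (c + 1)⁻¹ + c * (c + 1)⁻¹ = 1 := by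
    field_simp
    ring
  rw [this, one_smul]

lemma eq_one_of (p : ℕ) (hp : p.Prime) (hp2 : p ≠ 2) (v : VV p k)
    (h1 : ((v : kˣ × kˣ).1 * (v : kˣ × kˣ).2) = 1)
    (h2 : ((v : kˣ × kˣ).1 * ((v : kˣ × kˣ).2)⁻¹) = 1) : v = 1 := by
  obtain ⟨⟨x, y⟩, h⟩ := v
  rw [Subgroup.mem_prod, mem_rootsOfUnity, mem_rootsOfUnity] at h
  simp only at h h1 h2
  have hxy : x = y := by rwa [mul_inv_eq_one] at h2
  subst hxy
  have h3 : x ^ 2 = 1 := by rw [pow_two]; exact h1
  have hcop : Nat.Coprime 2 p := by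
    rw [Nat.coprime_primes Nat.prime_two hp]
    exact fun h => hp2 h.symm
  have h4 : x ^ (Nat.gcd 2 p) = 1 := by
    rw [pow_gcd_eq_one]
    exact ⟨h3, h.1⟩
  rw [hcop.gcd_eq_one, pow_one] at h4
  subst h4
  rfl

lemma Z_mem (p : ℕ) (hp : p.Prime) (hp2 : p ≠ 2) (a b : ι → k) :
    Zz S (fun i j => b i * a j) ∈ interH (GG S) (VV p k) := by
  unfold interH
  simp only [Subgroup.mem_iInf]
  intro v hv
  have hn := commWith_normal (GG S) (VV p k) v
  rw [← comm_X1_X2, commutatorElement_def]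
  by_cases h : ((v : kˣ × kˣ).1 * (v : kˣ × kˣ).2) = 1
  · have h' : ((v : kˣ × kˣ).1 * ((v : kˣ × kˣ).2)⁻¹) ≠ 1 := fun h2 => hv (eq_one_of p hp hp2 v h h2)
    have hm := X2_mem (S := S) p v h' b
    exact mul_mem (hn.conj_mem _ hm _) (inv_mem hm)
  · have hm := X1_mem (S := S) p v h a
    have h2 := hn.conj_mem _ (inv_mem hm) (X2 S b)
    have h3 := mul_mem hm h2
    convert h3 using 1
    group

end GG
end group

section final
open GG

variable {k R : Type} [Field k] [CharP k 2] [CommRing R] [Algebra k R]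

lemma T_single {ι : Type} [Fintype ι] [DecidableEq ι] (S : SqSystem k R ι) (i : ι) :
    S.T (Pi.single i 1) = S.t i := by
  unfold SqSystem.T
  rw [Finset.sum_eq_single i]
  · simp
  · intro j _ hj
    simp [hj]
  · simp

/-- the product of two of the variables -/
def uu {N : ℕ} (S : SqSystem k R (Fin N × Bool)) (j : Fin N) : R := S.t (j, true) * S.t (j, false)

lemma step {N : ℕ} (S : SqSystem k R (Fin N × Bool)) (m : R) (j : Fin N) :
    ⁅Mm S m, Zz S (fun i i' => (Pi.single (j, false) 1 : Fin N × Bool → k) i *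
      (Pi.single (j, true) 1 : Fin N × Bool → k) i')⁆ = Mm S (uu S j * m) := by
  rw [comm_M_Z, T_single, T_single]
  rfl

/-- products of the first `n` of the elements `uu` -/
noncomputable def ee {N : ℕ} (S : SqSystem k R (Fin N × Bool)) (n : ℕ) : R :=
  ∏ j ∈ Finset.univ.filter (fun j : Fin N => j.val < n), uu S j

lemma ee_zero {N : ℕ} (S : SqSystem k R (Fin N × Bool)) : ee S 0 = 1 := by
  simp [ee]

lemma ee_succ {N : ℕ} (S : SqSystem k R (Fin N × Bool)) (n : ℕ) (hn : n < N) :
    ee S (n + 1) = uu S ⟨n, hn⟩ * ee S n := by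
  unfold ee
  have : Finset.univ.filter (fun j : Fin N => j.val < n + 1) =
      insert ⟨n, hn⟩ (Finset.univ.filter (fun j : Fin N => j.val < n)) := by
    ext j
    simp only [Finset.mem_filter, Finset.mem_univ, true_and, Finset.mem_insert, Fin.ext_iff]
    omega
  rw [this, Finset.prod_insert (by simp)]

lemma ee_full {N : ℕ} (S : SqSystem k R (Fin N × Bool)) : ee S N = ∏ x, S.t x := by
  unfold ee
  rw [Fintype.prod_prod_type]
  have : Finset.univ.filter (fun j : Fin N => j.val < N) = Finset.univ := by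
    ext j; simp
  rw [this]
  refine Finset.prod_congr rfl fun j _ => ?_
  rw [Fintype.prod_bool]
  rfl

lemma mem_series {N : ℕ} (S : SqSystem k R (Fin N × Bool)) (p : ℕ) (hp : p.Prime) (hp2 : p ≠ 2)
    (n : ℕ) (hn : n < N) :
    Mm S (ee S (n + 1)) ∈ (interH (GG S) (VV p k)).lowerCentralSeries n := by
  induction n with
  | zero =>
    rw [Subgroup.lowerCentralSeries_zero, ee_succ S 0 hn, ← step, commutatorElement_def]
    have hz := Z_mem (S := S) p hp hp2 (Pi.single ((⟨0, hn⟩ : Fin N), true) 1 : Fin N × Bool → k)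
      (Pi.single ((⟨0, hn⟩ : Fin N), false) 1 : Fin N × Bool → k)
    have hnorm := interH_normal (GG S) (VV p k)
    exact mul_mem (hnorm.conj_mem _ hz _) (inv_mem hz)
  | succ n ih =>
    rw [Subgroup.lowerCentralSeries_succ, ee_succ S (n + 1) hn, ← step]
    exact Subgroup.commutator_mem_commutator (ih (by omega)) (Z_mem (S := S) p hp hp2 _ _)

lemma Mm_ne_one {ι : Type} [Fintype ι] (S : SqSystem k R ι) (m : R) (hm : m ≠ 0) : Mm S m ≠ 1 := by
  intro h
  exact hm (congrArg GG.m1 h)

lemma lcs_ne_bot {N : ℕ} (S : SqSystem k R (Fin N × Bool)) (hS : ∏ x, S.t x ≠ 0)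
    (p : ℕ) (hp : p.Prime) (hp2 : p ≠ 2) (n : ℕ) (hn : n < N) :
    (interH (GG S) (VV p k)).lowerCentralSeries n ≠ ⊥ := by
  intro h
  have h1 := mem_series S p hp hp2 (N - 1) (by omega)
  have h2 := (Subgroup.lowerCentralSeries_antitone (interH (GG S) (VV p k)))
    (show n ≤ N - 1 by omega) h1
  rw [h, Subgroup.mem_bot] at h2
  apply Mm_ne_one S _ _ h2
  rw [Nat.sub_add_cancel (by omega), ee_full]
  exact hS

lemma Z_mem_derived {ι : Type} [Fintype ι] (S : SqSystem k R ι) (a b : ι → k) :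
    Zz S (fun i j => b i * a j) ∈ derivedSeries (GG S) 1 := by
  rw [← comm_X1_X2, derivedSeries_succ, derivedSeries_zero]
  exact Subgroup.commutator_mem_commutator trivial trivial

lemma derived_ne {N : ℕ} (S : SqSystem k R (Fin N × Bool)) (hS : ∏ x, S.t x ≠ 0) (hN : 2 ≤ N) :
    derivedSeries (GG S) 2 ≠ ⊥ := by
  intro h
  have h1 : Mm S (ee S 1) ∈ derivedSeries (GG S) 1 := by
    rw [ee_succ S 0 (by omega), ← step, derivedSeries_succ, derivedSeries_zero]
    exact Subgroup.commutator_mem_commutator trivial trivial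
  have h2 : Mm S (ee S 2) ∈ derivedSeries (GG S) 2 := by
    rw [ee_succ S 1 (by omega), ← step, derivedSeries_succ]
    exact Subgroup.commutator_mem_commutator h1 (Z_mem_derived S _ _)
  rw [h, Subgroup.mem_bot] at h2
  apply Mm_ne_one S _ _ h2
  intro h3
  apply hS
  rw [← ee_full]
  have : ∀ n, 2 ≤ n → n ≤ N → ee S n = 0 := by
    intro n hn
    induction n, hn using Nat.le_induction with
    | base => intro _; exact h3
    | succ n hn ih =>
      intro hn'
      rw [ee_succ S n (by omega), ih (by omega), mul_zero]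
  exact this N hN le_rfl

lemma faithful {ι : Type} [Fintype ι] [Nonempty ι] (S : SqSystem k R ι)
    (p : ℕ) (hp : p.Prime) (hp2 : p ≠ 2) (v : VV p k) (h : ∀ g : GG S, v • g = g) : v = 1 := by
  obtain ⟨i⟩ := ‹Nonempty ι›
  apply eq_one_of p hp hp2 v
  · have h1 := congrFun (congrArg GG.a (h (X1 S 1))) i
    rw [vv_smul, smul_a] at h1
    apply Units.ext
    simpa [X1] using h1
  · have h1 := congrFun (congrArg GG.b (h (X2 S 1))) i
    rw [vv_smul, smul_b] at h1
    apply Units.ext
    simpa [X2] using h1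

end final

/-- the truncated polynomial ring gives a system -/
noncomputable def trSystem (k ι : Type) [Field k] : SqSystem k (TR k ι) ι where
  t := tau k ι
  t_sq := tau_sq
  sc := scaleHom k ι
  sc_t := scaleHom_tau
  sc_one := scaleHom_one
  sc_mul := scaleHom_mul

/-- For every odd prime `p` and every `c` there is a finite group `G` of derived length exactly `3`
with a faithful regular action of an elementary abelian group `V` of order `p^2` such that the
intersection `H` of the subgroups `[G,v]`, `v ≠ 1`, is nilpotent of class larger than `c`. -/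
theorem result (p : ℕ) (hp : p.Prime) (hp2 : p ≠ 2) (c : ℕ) :
    ∃ (G : Type) (_ : Group G) (_ : Finite G) (V : Type) (_ : CommGroup V)
      (_ : MulDistribMulAction V G),
      Nat.card V = p ^ 2 ∧ (∀ v : V, v ^ p = 1) ∧
      (∀ v : V, (∀ g : G, v • g = g) → v = 1) ∧
      (∀ g : G, (∀ v : V, v • g = g) → g = 1) ∧
      derivedSeries G 3 = ⊥ ∧ derivedSeries G 2 ≠ ⊥ ∧
      Group.IsNilpotent (interH G V) ∧ c < Group.nilpotencyClass (interH G V) := by
  have : Fact (Nat.Prime 2) := ⟨Nat.prime_two⟩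
  have : Fact p.Prime := ⟨hp⟩
  have : NeZero p := ⟨hp.ne_zero⟩
  -- the field
  have hp1 : p - 1 ≠ 0 := by have := hp.two_le; omega
  let k := GaloisField 2 (p - 1)
  have : Finite k := Nat.finite_of_card_ne_zero (by
    rw [GaloisField.card 2 (p - 1) hp1]; positivity)
  obtain ⟨w, hw⟩ : ∃ w : kˣ, IsPrimitiveRoot w p := by
    have : Fintype kˣ := Fintype.ofFinite _
    have hcard : p ∣ Fintype.card kˣ := by
      rw [← Nat.card_eq_fintype_card, Nat.card_units, GaloisField.card 2 (p - 1) hp1]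
      have hcop : Nat.Coprime 2 p := by
        rw [Nat.coprime_primes Nat.prime_two hp]
        exact fun h => hp2 h.symm
      have h1 := Nat.ModEq.pow_totient hcop
      rw [Nat.totient_prime hp] at h1
      exact (Nat.modEq_iff_dvd' (Nat.one_le_pow _ _ (by norm_num))).mp h1.symm
    obtain ⟨w, hw⟩ := exists_prime_orderOf_dvd_card p hcard
    have h2 := IsPrimitiveRoot.orderOf w
    rw [hw] at h2
    exact ⟨w, h2⟩
  let ι := Fin (c + 2) × Bool
  let S : SqSystem k (TR k ι) ι := trSystem k ι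
  have : Finite (GG S) := GG.finite_GG
  have : Nonempty ι := ⟨((0 : Fin (c + 2)), true)⟩
  have hw' : IsPrimitiveRoot (w : k) p := by
    rwa [IsPrimitiveRoot.coe_units_iff]
  have hprod : ∏ x, S.t x ≠ 0 := prod_tau_ne_zero
  have hnil : Group.IsNilpotent (interH (GG S) (GG.VV p k)) := by
    have : Group.IsNilpotent (GG S) := GG.isPGroup.isNilpotent
    infer_instance
  refine ⟨GG S, inferInstance, inferInstance, GG.VV p k, inferInstance, inferInstance,
    GG.vv_card p (w : k) hw', GG.vv_pow p, faithful S p hp hp2, GG.fpf p hp hp2 w hw,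
    GG.derived_three, derived_ne S hprod (by omega), hnil, ?_⟩
  by_contra hcon
  rw [not_lt] at hcon
  have h1 := (Subgroup.lowerCentralSeries_eq_bot_iff_nilpotencyClass_le
    (G := ↥(interH (GG S) (GG.VV p k)))).mpr hcon
  apply lcs_ne_bot S hprod p hp hp2 c (by omega)
  rw [← Subgroup.top_subtype_lowerCentralSeries, h1, Subgroup.map_bot]

end Pool.Agent.Results.MP_e56c9f_al.ClassUnbounded
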